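import Mathlib
import Pool.Agent.N205.SE.Count
import Pool.Agent.N205.NS.Final
import Pool.Agent.N205.SD.Split
import Pool.Agent.N205.SF.Defs

/-!
# The count and the facts, for the definitions of `SF.Defs`
-/

set_option autoImplicit false

namespace Pool.Agent.N205.SF

open Polynomial Pool.Agent.W521.Frob Pool.Agent.N205.SE

theorem isData_iff {a g : ℕ} {m : ℕ → ℕ} {T : ℕ → Prop} : NS.IsData a g m T ↔ IsData a g m T :=
  ⟨fun h => ⟨h.1, h.2, h.3⟩, fun h => ⟨h.1, h.2, h.3⟩⟩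

theorem isStratum_iff {p a g t : ℕ} {S : Set ℤ[X]} :
    IsStratum p a g t S ↔ NS.IsStratum p a g t S := by
  constructor
  · rintro ⟨m, T, h1, h2, h3, h4⟩
    exact ⟨m, T, isData_iff.2 h1, h2, h3, h4⟩
  · rintro ⟨m, T, h1, h2, h3, h4⟩
    exact ⟨m, T, isData_iff.1 h1, h2, h3, h4⟩

theorem isHalfPolygon_iff {a g : ℕ} {b : ℕ → ℝ} : NS.IsHalfPolygon a g b ↔ IsHalfPolygon a g b :=
  ⟨fun h => ⟨h.1, h.2, h.3, h.4, h.5⟩, fun h => ⟨h.1, h.2, h.3, h.4, h.5⟩⟩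

theorem strataFacts : StrataFacts := by
  obtain ⟨h1, h2⟩ := NS.strataFacts
  refine ⟨fun p a g t b ha hb ht S hS1 hS2 => ?_, fun p a g r t hp ha hr h3 h4 => ?_⟩
  · exact isStratum_iff.2 (h1 p a g t b ha (isHalfPolygon_iff.2 hb) ht S hS1 hS2)
  · exact isStratum_iff.2 (h2 p a g r t hp ha hr h3 h4)

theorem closedUnder_iff {d : ℕ} {K : IntermediateField ℚ ℂ} :
    ClosedUnder d K ↔ SD.ClosedUnder d K := by
  constructor
  · intro h P z hP hd hz
    refine h (P.map (algebraMap K ℂ)) z ?_ ?_ ?_ ?_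
    · rwa [Ne, Polynomial.map_eq_zero]
    · rwa [Polynomial.natDegree_map]
    · intro n
      rw [Polynomial.coeff_map]
      exact (P.coeff n).2
    · rw [Polynomial.eval_map]
      exact hz
  · intro h P z hP hd hc hz
    have hl : P ∈ Polynomial.lifts (algebraMap K ℂ) := by
      rw [Polynomial.lifts_iff_coeff_lifts]
      intro n
      exact ⟨⟨P.coeff n, hc n⟩, rfl⟩
    obtain ⟨Q, hQ⟩ := (Polynomial.mem_lifts P).1 hl
    refine h Q z ?_ ?_ ?_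
    · rintro rfl
      rw [Polynomial.map_zero] at hQ
      exact hP hQ.symm
    · rwa [← Polynomial.natDegree_map (algebraMap K ℂ), hQ]
    · rw [aeval_def, ← Polynomial.eval_map, hQ]
      exact hz

theorem lowField_eq (E : IntermediateField ℚ ℂ) (d : ℕ) : lowField E d = SD.lowField E d := by
  unfold lowField SD.lowField
  congr 1
  ext K
  simp only [Set.mem_ofPred_eq, closedUnder_iff]

theorem normal_congr {K K' : IntermediateField ℚ ℂ} (h : K = K') (hK : Normal ℚ K') :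
    Normal ℚ K := by
  subst h
  exact hK

theorem fieldFacts : FieldFacts := by
  obtain ⟨⟨h1, h2⟩, h3⟩ := SD.fieldFacts
  refine ⟨fun E d hE => ?_, fun E d hd P Q z hP hPd hz hQ => ?_, h3⟩
  · obtain ⟨h4, h5, h6⟩ := h1 E d hE
    refine ⟨normal_congr (lowField_eq E d) h4, ?_, ?_⟩
    · rw [lowField_eq]
      exact h5
    · rw [lowField_eq, closedUnder_iff]
      exact h6
  · rw [lowField_eq]
    exact h2 E d hd P Q z hP hPd hz hQ

/-- **The count.** -/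
theorem indep_unif {I : Type} [Fintype I] (g : I → ℕ) (hg : ∀ i, 0 < g i) (d : ℕ)
    (hd : DimsU g d) (D : ℕ) (P : ℕ → (I → ℤ[X]) → Prop)
    (hP : ∀ q : ℕ, IsPrimePow q → ∀ x : (Σ i, Fin (g i)) → ℤ, W521.Bad.Good g q x →
      P q (fun i => weil q (W521.Density.polys g x i))) :
    ∃ C : ℝ, ∀ p a t : ℕ, p.Prime → 0 < a → 0 < t → ∀ S : I → Set ℤ[X],
      (∀ i, IsStratum p a (g i) t (S i)) →
      (∀ i, (S i).Finite ∧ (4 ^ g i ≤ p ^ t → (S i).Nonempty)) ∧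
      ({f : I → ℤ[X] | (∀ i, f i ∈ S i) ∧ ¬ (P (p ^ a) f ∧ Criterion g (p ^ a) f)}.ncard : ℝ) ≤
        C * (Real.log ((p ^ t : ℕ) : ℝ) * ((p ^ t : ℕ) : ℝ) ^ (-(1 / 6) : ℝ)) *
          ∏ i, ((S i).ncard : ℝ) ∧
      ∀ E : IntermediateField ℚ ℂ, Normal ℚ E → FiniteDimensional ℚ E → Module.finrank ℚ E ≤ D →
        ({f : I → ℤ[X] | (∀ i, f i ∈ S i) ∧ ¬ NoRoot f (lowField E d)}.ncard : ℝ) ≤
          C * (Real.log ((p ^ t : ℕ) : ℝ) * ((p ^ t : ℕ) : ℝ) ^ (-(1 / 6) : ℝ)) *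
            ∏ i, ((S i).ncard : ℝ) := by
  obtain ⟨C, hC⟩ := SE.indep_unif g hg d hd D P hP
  refine ⟨C, fun p a t hp ha ht S hS => ?_⟩
  obtain ⟨h1, h2, h3⟩ := hC p a t hp ha ht S fun i => isStratum_iff.1 (hS i)
  refine ⟨h1, h2, fun E hE1 hE2 hE3 => ?_⟩
  rw [lowField_eq]
  exact h3 E hE1 hE2 hE3

end Pool.Agent.N205.SF
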